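import Pool.Agent.W662.SK.StmtsB

set_option autoImplicit false
set_option linter.all false

open scoped InnerProductSpace ENNReal
open Filter Topology

namespace Pool.Agent.W918.SK

open Pool.Agent.W662.SK

noncomputable section

section
variable {I E F : Type} [NormedAddCommGroup E] [InnerProductSpace ℂ E]
  [NormedAddCommGroup F] [InnerProductSpace ℂ F]

theorem inner_lft (T T' : E →L[ℂ] F) (c : ℂ) (h : ∀ x x', ⟪T x, T' x'⟫_ℂ = c * ⟪x, x'⟫_ℂ)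
    (f f' : L2 I E) : ⟪lft I T f, lft I T' f'⟫_ℂ = c * ⟪f, f'⟫_ℂ := by
  have h1 := inner_hasSum (lft I T f) (lft I T' f')
  have h2 := (inner_hasSum f f').mul_left c
  have h3 : (fun i => ⟪lft I T f i, lft I T' f' i⟫_ℂ) = fun i => c * ⟪f i, f' i⟫_ℂ := by
    funext i
    exact h (f i) (f' i)
  rw [h3] at h1
  exact h1.unique h2

end

section
variable {B X : Type} [NormedAddCommGroup X] [InnerProductSpace ℂ X]

theorem inner_tens (y y' : L2 B ℂ) (x x' : X) :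
    ⟪tens y x, tens y' x'⟫_ℂ = ⟪y, y'⟫_ℂ * ⟪x, x'⟫_ℂ := by
  have h1 := inner_hasSum (tens y x) (tens y' x')
  have h2 := (inner_hasSum y y').mul_right ⟪x, x'⟫_ℂ
  have h3 : (fun i => ⟪tens y x i, tens y' x' i⟫_ℂ) = fun i => ⟪y i, y' i⟫_ℂ * ⟪x, x'⟫_ℂ := by
    funext i
    rw [tens_apply, tens_apply, inner_smul_left, inner_smul_right, RCLike.inner_apply]
    ring
  rw [h3] at h1
  exact h1.unique h2

theorem inner_tss (v v' : X) (c d : ℂ) :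
    ⟪ContinuousLinearMap.toSpanSingleton ℂ v c, ContinuousLinearMap.toSpanSingleton ℂ v' d⟫_ℂ =
      ⟪v, v'⟫_ℂ * ⟪c, d⟫_ℂ := by
  rw [ContinuousLinearMap.toSpanSingleton_apply, ContinuousLinearMap.toSpanSingleton_apply,
    inner_smul_left, inner_smul_right, RCLike.inner_apply]
  ring

theorem inner_jm {ι K Γ : Type} [NormedAddCommGroup K] [InnerProductSpace ℂ K]
    (b : HilbertBasis ι ℂ K) (v v' : X) (w w' : L2 Γ K) :
    ⟪jm Γ b v w, jm Γ b v' w'⟫_ℂ = ⟪v, v'⟫_ℂ * ⟪w, w'⟫_ℂ := by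
  unfold jm
  apply inner_lft
  intro x x'
  show ⟪lft ι (ContinuousLinearMap.toSpanSingleton ℂ v) (b.repr x),
    lft ι (ContinuousLinearMap.toSpanSingleton ℂ v') (b.repr x')⟫_ℂ = _
  rw [inner_lft _ _ _ (inner_tss v v'), b.repr.inner_map_map]

end

section
variable {Γ K B ι : Type} [Group Γ] [NormedAddCommGroup K] [InnerProductSpace ℂ K]
  (b : HilbertBasis ι ℂ K)

/-- elementary tensors -/
def W (y : L2 B ℂ) (v w : L2 Γ K) : L2 Γ (L2 B (L2 ι (L2 Γ K))) :=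
  lft Γ (tens y) (jm Γ b v w)

theorem inner_W (y y' : L2 B ℂ) (v w v' w' : L2 Γ K) :
    ⟪W b y v w, W b y' v' w'⟫_ℂ = ⟪y, y'⟫_ℂ * (⟪v, v'⟫_ℂ * ⟪w, w'⟫_ℂ) := by
  unfold W
  rw [inner_lft _ _ _ (inner_tens y y'), inner_jm]

theorem lft_W (T : L2 Γ K →L[ℂ] L2 Γ K) (y : L2 B ℂ) (v w : L2 Γ K) :
    lft Γ (lft B (lft ι T)) (W b y v w) = W b y (T v) w := by
  refine l2_ext fun γ => l2_ext fun β => l2_ext fun i => ?_
  show T (y β • ((b.repr (w γ) i) • v)) = y β • ((b.repr (w γ) i) • T v)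
  rw [map_smul, map_smul]

theorem Rho_W (g : Γ) (y : L2 B ℂ) (v w : L2 Γ K) :
    Rho (L2 B (L2 ι (L2 Γ K))) g (W b y v w) = W b y v (Rho K g w) := by
  refine l2_ext fun γ => l2_ext fun β => l2_ext fun i => ?_
  rw [Rho_apply]
  show y β • ((b.repr (w (γ * g)) i) • v) = y β • ((b.repr (Rho K g w γ) i) • v)
  rw [Rho_apply]

theorem MW (g h : Γ) (y : L2 B ℂ) (v w : L2 Γ K) :
    lft Γ (lft B (lft ι (cl (Lam K h)))) (Rho (L2 B (L2 ι (L2 Γ K))) g (W b y v w)) =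
      W b y (Lam K h v) (Rho K g w) :=
  (congrArg (lft Γ (lft B (lft ι (cl (Lam K h))))) (Rho_W b g y v w)).trans (lft_W b _ y v _)

end

/-- the computation with an abstract big space -/
theorem abst {Γ K B : Type} [Group Γ] [DecidableEq Γ] [NormedAddCommGroup K] [InnerProductSpace ℂ K]
    [CompleteSpace K] {H : Type} [NormedAddCommGroup H] [InnerProductSpace ℂ H]
    (V : L2 B ℂ → L2 Γ K → L2 Γ K → H) (M : H →ₗ[ℂ] H) (g h : Γ)
    (hVi : ∀ (y y' : L2 B ℂ) (v w v' w' : L2 Γ K),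
      ⟪V y v w, V y' v' w'⟫_ℂ = ⟪y, y'⟫_ℂ * (⟪v, v'⟫_ℂ * ⟪w, w'⟫_ℂ))
    (hM : ∀ y v w, M (V y v w) = V y (Lam K h v) (Rho K g w))
    (x0 : K) (hx0 : ‖x0‖ = 1)
    (u : Γ → (L2 Γ K →L[ℂ] L2 Γ K)) (hu1 : ∀ h k, u h * u k = u (h * k)) (hu2 : ∀ h, star (u h) = u h⁻¹)
    (hu3 : ∀ h k, u h * cl (Rho K k) = cl (Rho K k) * u h)
    (S : Finset Γ) (n m : ℕ) (y : Fin m → Γ → L2 B ℂ) (hy : ∀ r k, k ∉ S → y r k = 0)
    (z : Fin n → Fin m → L2 Γ K) (i j : Fin n) :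
    ⟪∑ k ∈ S, ∑ r, V (y r k) (lp.single 2 k x0 : L2 Γ K) (u k⁻¹ (z j r)),
      M (∑ k ∈ S, ∑ r, V (y r k) (lp.single 2 k x0 : L2 Γ K) (u k⁻¹ (z i r)))⟫_ℂ =
    ∑ r, ∑ s, (∑ k ∈ S, ⟪y s (h * k), y r k⟫_ℂ) * ⟪z j s, u h (Rho K g (z i r))⟫_ℂ := by
  have e1 : M (∑ k ∈ S, ∑ r, V (y r k) (lp.single 2 k x0 : L2 Γ K) (u k⁻¹ (z i r))) =
      ∑ k ∈ S, ∑ r, V (y r k) (lp.single 2 (h * k) x0 : L2 Γ K) (Rho K g (u k⁻¹ (z i r))) := by
    rw [map_sum]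
    refine Finset.sum_congr rfl fun k _ => ?_
    rw [map_sum]
    refine Finset.sum_congr rfl fun r _ => ?_
    rw [hM, Lam_single]
  rw [e1]
  have e2 : ∀ (k' k : Γ) (s r : Fin m),
      ⟪V (y s k') (lp.single 2 k' x0 : L2 Γ K) (u k'⁻¹ (z j s)),
        V (y r k) (lp.single 2 (h * k) x0 : L2 Γ K) (Rho K g (u k⁻¹ (z i r)))⟫_ℂ =
      if k' = h * k then ⟪y s (h * k), y r k⟫_ℂ * ⟪z j s, u h (Rho K g (z i r))⟫_ℂ else 0 := by
    intro k' k s r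
    rw [hVi, inner_single_left']
    split_ifs with hk
    · subst hk
      have h1 : (lp.single 2 (h * k) x0 : L2 Γ K) (h * k) = x0 := by simp
      rw [h1, inner_self_eq_norm_sq_to_K, hx0]
      have h2 : ⟪u (h * k)⁻¹ (z j s), Rho K g (u k⁻¹ (z i r))⟫_ℂ = ⟪z j s, u h (Rho K g (z i r))⟫_ℂ := by
        rw [← hu2, ContinuousLinearMap.star_eq_adjoint, ContinuousLinearMap.adjoint_inner_left]
        congr 1
        have h3 : Rho K g (u k⁻¹ (z i r)) = u k⁻¹ (Rho K g (z i r)) := by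
          have := congrArg (fun T : L2 Γ K →L[ℂ] L2 Γ K => T (z i r)) (hu3 k⁻¹ g)
          exact this.symm
        rw [h3]
        have h4 := congrArg (fun T : L2 Γ K →L[ℂ] L2 Γ K => T (Rho K g (z i r))) (hu1 (h * k) k⁻¹)
        rw [mul_inv_cancel_right] at h4
        exact h4
      rw [h2]
      simp
    · have h1 : (lp.single 2 (h * k) x0 : L2 Γ K) k' = 0 := lp.single_apply_ne _ _ _ hk
      rw [h1, inner_zero_right]
      simp
  -- sum over `k'`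
  have e3 : ∀ (k : Γ) (s r : Fin m), ∑ k' ∈ S, (if k' = h * k then
      ⟪y s (h * k), y r k⟫_ℂ * ⟪z j s, u h (Rho K g (z i r))⟫_ℂ else 0) =
      ⟪y s (h * k), y r k⟫_ℂ * ⟪z j s, u h (Rho K g (z i r))⟫_ℂ := by
    intro k s r
    rw [Finset.sum_ite_eq']
    split_ifs with hk
    · rfl
    · rw [hy s _ hk, inner_zero_left, zero_mul]
  have e4 : ⟪∑ k ∈ S, ∑ r, V (y r k) (lp.single 2 k x0 : L2 Γ K) (u k⁻¹ (z j r)),
      ∑ k ∈ S, ∑ r, V (y r k) (lp.single 2 (h * k) x0 : L2 Γ K) (Rho K g (u k⁻¹ (z i r)))⟫_ℂ =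
      ∑ k' ∈ S, ∑ s, ∑ k ∈ S, ∑ r, (if k' = h * k then
        ⟪y s (h * k), y r k⟫_ℂ * ⟪z j s, u h (Rho K g (z i r))⟫_ℂ else 0) := by
    rw [sum_inner]
    refine Finset.sum_congr rfl fun k' _ => ?_
    rw [sum_inner]
    refine Finset.sum_congr rfl fun s _ => ?_
    rw [inner_sum]
    refine Finset.sum_congr rfl fun k _ => ?_
    rw [inner_sum]
    exact Finset.sum_congr rfl fun r _ => e2 k' k s r
  rw [e4, Finset.sum_comm]
  have e5 : ∀ s : Fin m, ∑ k' ∈ S, ∑ k ∈ S, ∑ r, (if k' = h * k then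
        ⟪y s (h * k), y r k⟫_ℂ * ⟪z j s, u h (Rho K g (z i r))⟫_ℂ else 0) =
      ∑ r, (∑ k ∈ S, ⟪y s (h * k), y r k⟫_ℂ) * ⟪z j s, u h (Rho K g (z i r))⟫_ℂ := by
    intro s
    rw [Finset.sum_comm]
    have : ∀ k ∈ S, ∑ k' ∈ S, ∑ r, (if k' = h * k then
        ⟪y s (h * k), y r k⟫_ℂ * ⟪z j s, u h (Rho K g (z i r))⟫_ℂ else 0) =
        ∑ r, ⟪y s (h * k), y r k⟫_ℂ * ⟪z j s, u h (Rho K g (z i r))⟫_ℂ := by
      intro k _
      rw [Finset.sum_comm]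
      exact Finset.sum_congr rfl fun r _ => e3 k s r
    rw [Finset.sum_congr rfl this, Finset.sum_comm]
    refine Finset.sum_congr rfl fun r _ => ?_
    rw [Finset.sum_mul]
  rw [Finset.sum_congr rfl (fun s _ => e5 s), Finset.sum_comm]

theorem main {Γ K B ι : Type} [Group Γ] [DecidableEq Γ] [NormedAddCommGroup K] [InnerProductSpace ℂ K]
    [CompleteSpace K] (b : HilbertBasis ι ℂ K) (x0 : K) (hx0 : ‖x0‖ = 1)
    (u : Γ → (L2 Γ K →L[ℂ] L2 Γ K)) (hu1 : ∀ h k, u h * u k = u (h * k)) (hu2 : ∀ h, star (u h) = u h⁻¹)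
    (hu3 : ∀ h k, u h * cl (Rho K k) = cl (Rho K k) * u h)
    (S : Finset Γ) (n m : ℕ) (y : Fin m → Γ → L2 B ℂ) (hy : ∀ r k, k ∉ S → y r k = 0)
    (z : Fin n → Fin m → L2 Γ K) (g h : Γ) (i j : Fin n) :
    ⟪Yv b x0 u S y (z j), lft Γ (lft B (lft ι (cl (Lam K h))))
      (Rho (L2 B (L2 ι (L2 Γ K))) g (Yv b x0 u S y (z i)))⟫_ℂ =
    ∑ r, ∑ s, (∑ k ∈ S, ⟪y s (h * k), y r k⟫_ℂ) * ⟪z j s, u h (Rho K g (z i r))⟫_ℂ :=
  abst (W b) ((lft Γ (lft B (lft ι (cl (Lam K h))))).toLinearMap ∘ₗ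
      (Rho (L2 B (L2 ι (L2 Γ K))) g).toLinearEquiv.toLinearMap) g h (inner_W b)
      (fun y v w => MW b g h y v w) x0 hx0 u hu1 hu2 hu3 S n m y hy z i j

open Classical in
theorem qc : S_Qc := by
  intro Γ K B ι _ _ _ _ b x0 hx0 u hu1 hu2 hu3 S n m y hy z _ g h i j
  exact main b x0 hx0 u hu1 hu2 hu3 S n m y hy z g h i j

end

end Pool.Agent.W918.SK
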